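import Pool.Agent.Q117.MG.Stm2
import Pool.Agent.Q117.AP.Prna
import Pool.Agent.Q253.Thin.Int

/-!
Project MG (helper117), common lemmas for the jobs GMQ and PRM (written by helper166).
-/

set_option autoImplicit false

namespace Pool.Agent.Q166.MG

open Finset Filter
open Pool.Agent.Q117.LF (Ro oF)
open Pool.Agent.Q117.AP (AdQ VQ)
open Pool.Agent.Q117.AP.PATa
open Pool.Agent.Q253.Thin (SysZ VZ_low)
open Pool.Agent.Y843.HS (Pr VV Pr_mem Pr_prime)

theorem oF_lt {q p : ℕ} {F : Finset ℤ} (h : AdQ q F) (hp : p.Prime) (hpq : ¬ p ∣ q) :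
    oF F p < p := by
  obtain ⟨r, hr⟩ := h p hp hpq
  have hp' : (0 : ℤ) < p := by exact_mod_cast hp.pos
  unfold oF
  have h1 : F.image (fun e : ℤ => e % (p : ℤ)) ⊆ (Ico (0 : ℤ) p).erase ((-r) % p) := by
    intro x hx
    obtain ⟨e, he, rfl⟩ := mem_image.1 hx
    rw [mem_erase, mem_Ico]
    refine ⟨fun h2 => hr e he ?_, Int.emod_nonneg _ hp'.ne', Int.emod_lt_of_pos _ hp'⟩
    have h3 : -r ≡ e [ZMOD (p : ℤ)] := h2.symm
    have h4 := h3.dvd
    rw [sub_neg_eq_add, add_comm] at h4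
    exact h4
  have h2 : (-r) % (p : ℤ) ∈ Ico (0 : ℤ) p :=
    mem_Ico.2 ⟨Int.emod_nonneg _ hp'.ne', Int.emod_lt_of_pos _ hp'⟩
  calc _ ≤ ((Ico (0 : ℤ) p).erase ((-r) % p)).card := card_le_card h1
    _ = p - 1 := by rw [card_erase_of_mem h2, Int.card_Ico, sub_zero, Int.toNat_natCast]
    _ < p := Nat.sub_lt hp.pos one_pos

theorem VQ_low (k : ℕ) : ∃ c : ℝ, 0 < c ∧ ∀ y q : ℕ, 2 ≤ y → ∀ F : Finset ℤ, F.card ≤ k →
    AdQ q F → c / Real.log y ^ (k + 1) ≤ VQ y q F := by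
  obtain ⟨c, hc, h⟩ := VZ_low (k + 1) (by omega)
  refine ⟨c, hc, fun y q hy F hF hA => ?_⟩
  classical
  obtain ⟨Z, hZ⟩ : ∃ Z : ℕ → Finset ℕ, Z = fun p => if p ∣ q then ∅ else range (oF F p) :=
    ⟨_, rfl⟩
  have hcd : ∀ p, (Z p).card = if p ∣ q then 0 else oF F p := by
    intro p
    rw [hZ]
    dsimp only
    split_ifs
    · exact card_empty
    · exact card_range _
  have hS : SysZ (k + 1) Z := by
    refine ⟨fun p hp => ?_, fun p hp => ?_, fun p hp c hc' => ?_⟩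
    · rw [hcd]
      split_ifs
      · omega
      · unfold oF
        exact card_image_le.trans (by omega)
    · rw [hcd]
      split_ifs with hpq
      · exact hp.pos
      · exact oF_lt hA hp hpq
    · rw [hZ] at hc'
      dsimp only at hc'
      split_ifs at hc' with hpq
      · exact absurd hc' (notMem_empty _)
      · exact lt_trans (mem_range.1 hc') (oF_lt hA hp hpq)
  refine (h y hy Z hS).trans (le_of_eq ?_)
  unfold VV VQ
  have e : (Icc 1 y).filter (fun p : ℕ => p.Prime ∧ ¬ p ∣ q) =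
      (Pr 0 y).filter (fun p => ¬ p ∣ q) := by
    ext p
    rw [mem_filter, mem_filter, mem_Icc, Pr_mem]
    constructor
    · rintro ⟨⟨h1, h2⟩, h3, h4⟩
      exact ⟨⟨⟨by omega, h2⟩, h3⟩, h4⟩
    · rintro ⟨⟨⟨h1, h2⟩, h3⟩, h4⟩
      exact ⟨⟨by omega, h2⟩, h3, h4⟩
  rw [e, prod_filter]
  refine prod_congr rfl fun p _ => ?_
  rw [hcd]
  by_cases hpq : p ∣ q
  · rw [if_pos hpq, if_neg (not_not.2 hpq), Nat.cast_zero, zero_div, sub_zero]
  · rw [if_neg hpq, if_pos hpq]

theorem oF_shift_le (F : Finset ℤ) (a : ℤ) (p : ℕ) :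
    oF (F.image (fun f => f + a)) p ≤ oF F p := by
  unfold oF
  have h : (F.image (fun f => f + a)).image (fun e : ℤ => e % (p : ℤ)) =
      (F.image (fun e : ℤ => e % (p : ℤ))).image (fun x : ℤ => (x + a) % (p : ℤ)) := by
    rw [image_image, image_image]
    refine image_congr fun x _ => ?_
    show (x + a) % (p : ℤ) = (x % (p : ℤ) + a) % (p : ℤ)
    rw [Int.emod_add_emod]
  rw [h]
  exact card_image_le

theorem oF_shift (F : Finset ℤ) (a : ℤ) (p : ℕ) :
    oF (F.image (fun f => f + a)) p = oF F p := by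
  refine le_antisymm (oF_shift_le F a p) ?_
  have h := oF_shift_le (F.image (fun f => f + a)) (-a) p
  have e : (F.image (fun f => f + a)).image (fun f => f + -a) = F := by
    rw [image_image]
    have : ((fun f : ℤ => f + -a) ∘ fun f => f + a) = id := by
      funext x
      show x + a + -a = x
      ring
    rw [this, image_id]
  rw [e] at h
  exact h

theorem VQ_shift (y q : ℕ) (F : Finset ℤ) (a : ℤ) :
    VQ y q (F.image (fun f => f + a)) = VQ y q F := by
  unfold VQ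
  refine prod_congr rfl fun p _ => ?_
  rw [oF_shift]

theorem AdQ_shift {q : ℕ} {F : Finset ℤ} (h : AdQ q F) (a : ℤ) :
    AdQ q (F.image (fun f => f + a)) := by
  intro p hp hpq
  obtain ⟨r, hr⟩ := h p hp hpq
  refine ⟨r - a, fun e he => ?_⟩
  obtain ⟨f, hf, rfl⟩ := mem_image.1 he
  rw [show r - a + (f + a) = r + f by ring]
  exact hr f hf

theorem AdQ_mono {q : ℕ} {F G : Finset ℤ} (h : AdQ q G) (hs : F ⊆ G) : AdQ q F := by
  intro p hp hpq
  obtain ⟨r, hr⟩ := h p hp hpq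
  exact ⟨r, fun e he => hr e (hs he)⟩

theorem AdQ_single (q : ℕ) (e : ℤ) : AdQ q {e} := by
  intro p hp _
  refine ⟨1 - e, fun e' he hdv => ?_⟩
  rw [mem_singleton.1 he, sub_add_cancel] at hdv
  have h1 : p ∣ 1 := by exact_mod_cast hdv
  exact hp.one_lt.ne' (Nat.dvd_one.1 h1)

theorem no_shift {V : Finset ℤ} (hV : V.Nonempty) {c : ℤ} (hc : c ≠ 0) : ∃ v ∈ V, v + c ∉ V := by
  rcases lt_or_gt_of_ne hc with h | h
  · obtain ⟨m, hm, hle⟩ := exists_min_image V id hV
    refine ⟨m, hm, fun h1 => ?_⟩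
    have h2 : m ≤ m + c := hle _ h1
    linarith
  · obtain ⟨m, hm, hle⟩ := exists_max_image V id hV
    refine ⟨m, hm, fun h1 => ?_⟩
    have h2 : m + c ≤ m := hle _ h1
    linarith

theorem ev_logp (K : ℕ) {s : ℝ} (hs : 0 < s) (M : ℝ) :
    ∃ x0 : ℝ, ∀ x : ℝ, x0 ≤ x → M * Real.log x ^ K ≤ x ^ s := by
  have h1 := (isLittleO_log_rpow_rpow_atTop (r := (K : ℝ)) hs).bound
    (show (0 : ℝ) < 1 / (|M| + 1) by positivity)
  obtain ⟨x0, hx0⟩ := eventually_atTop.1 h1
  refine ⟨max x0 1, fun x hx => ?_⟩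
  have h2 := hx0 x ((le_max_left _ _).trans hx)
  have hx1 : 1 ≤ x := (le_max_right _ _).trans hx
  have h3 : 0 ≤ Real.log x := Real.log_nonneg hx1
  rw [Real.rpow_natCast, Real.norm_of_nonneg (by positivity),
    Real.norm_of_nonneg (by positivity)] at h2
  have h4 : 0 ≤ Real.log x ^ K := by positivity
  have h5 : M ≤ |M| + 1 := (le_abs_self M).trans (by linarith)
  calc M * Real.log x ^ K ≤ (|M| + 1) * Real.log x ^ K := by gcongr
    _ ≤ (|M| + 1) * (1 / (|M| + 1) * x ^ s) := by gcongr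
    _ = x ^ s := by
        have : |M| + 1 ≠ 0 := by positivity
        field_simp

end Pool.Agent.Q166.MG
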